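import Pool.Agent.BER.StmtsE

set_option autoImplicit false

/-!
# BER, row RHD: radial functions in `H^1_0` of the shell (adapted from Helper77_BEK/RHK)
-/

namespace Pool.Agent.BER.H88

open Set Filter Topology MeasureTheory
open scoped InnerProductSpace ENNReal
open Pool.Agent.BE01 Pool.Agent.BEL Pool.Agent.BEF Pool.Agent.BEN Pool.Agent.BEH Pool.Agent.BEG Pool.Agent.BER

noncomputable section

/-- the gradient of a radial function -/
theorem rad_grad {d : ℕ} (h : ℝ → ℝ) (x : En d) {h' : ℝ} (hh : HasDerivAt h h' (‖x‖ ^ 2)) :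
    HasGradientAt (fun y : En d => h (‖y‖ ^ 2)) ((2 * h') • x) x := by
  rw [hasGradientAt_iff_hasFDerivAt]
  have h1 := hh.comp_hasFDerivAt x (hasStrictFDerivAt_norm_sq x).hasFDerivAt
  have h2 : InnerProductSpace.toDual ℝ (En d) ((2 * h') • x) = h' • (2 • innerSL ℝ x) := by
    ext v
    simp only [map_smul, _root_.smul_apply, InnerProductSpace.toDual_apply_apply,
      innerSL_apply_apply, smul_eq_mul, nsmul_eq_mul]
    push_cast
    ring
  rw [h2]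
  exact h1

theorem an_open (d : ℕ) (a b : ℝ) : IsOpen (Sh d a b) :=
  (isOpen_lt continuous_const continuous_norm).inter (isOpen_lt continuous_norm continuous_const)

theorem an_bdd (d : ℕ) (a b : ℝ) : Bornology.IsBounded (Sh d a b) :=
  (Metric.isBounded_closedBall (x := (0 : En d)) (r := b)).subset fun x hx => by
    rw [mem_closedBall_zero_iff]
    exact hx.2.le

theorem an_dom {d : ℕ} (hd : 1 ≤ d) {a b : ℝ} (ha : 0 < a) (hab : a < b) : Dom (Sh d a b) := by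
  refine ⟨an_open d a b, an_bdd d a b, EuclideanSpace.single (⟨0, hd⟩ : Fin d) ((a + b) / 2), ?_⟩
  have h1 : ‖(EuclideanSpace.single (⟨0, hd⟩ : Fin d) ((a + b) / 2) : En d)‖ = (a + b) / 2 := by
    rw [PiLp.norm_single, Real.norm_eq_abs, abs_of_pos (by linarith)]
  refine ⟨?_, ?_⟩
  · rw [h1]; linarith
  · rw [h1]; linarith

/-- the square of the norm of a point of the annulus -/
theorem an_sq {d : ℕ} {a b : ℝ} (ha : 0 < a) {x : En d} (hx : x ∈ Sh d a b) :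
    a ^ 2 < ‖x‖ ^ 2 ∧ ‖x‖ ^ 2 < b ^ 2 :=
  ⟨pow_lt_pow_left₀ hx.1 ha.le two_ne_zero, pow_lt_pow_left₀ hx.2 (norm_nonneg _) two_ne_zero⟩

/-- bounded continuous functions on the annulus are in `L^2` -/
theorem an_memLp {d : ℕ} {E : Type} [NormedAddCommGroup E] {a b : ℝ} (f : En d → E)
    (hf : ContinuousOn f (Sh d a b)) (C : ℝ) (hC : ∀ x ∈ Sh d a b, ‖f x‖ ≤ C) :
    MemLp f 2 (mu (Sh d a b)) := by
  have hfin : IsFiniteMeasure (mu (Sh d a b)) := by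
    refine ⟨?_⟩
    unfold mu
    rw [Measure.restrict_apply_univ]
    exact (an_bdd d a b).measure_lt_top
  refine MemLp.of_bound (hf.aestronglyMeasurable (an_open d a b).measurableSet) C ?_
  exact (ae_restrict_iff' (an_open d a b).measurableSet).2 (Filter.Eventually.of_forall hC)

theorem an_grad {d : ℕ} {a b : ℝ} (ha : 0 < a) (hab : a < b) (h : ℝ → ℝ)
    (hh : ContDiffOn ℝ ((⊤ : ℕ∞) : WithTop ℕ∞) h (Ioi 0)) :
    MemLp (gradient fun y : En d => h (‖y‖ ^ 2)) 2 (mu (Sh d a b)) := by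
  have hc : ContinuousOn (deriv h) (Ioi 0) :=
    hh.continuousOn_deriv_of_isOpen isOpen_Ioi (by exact_mod_cast le_top)
  have hsub : Icc (a ^ 2) (b ^ 2) ⊆ Ioi (0 : ℝ) := fun t ht => lt_of_lt_of_le (by positivity) ht.1
  obtain ⟨K, hK⟩ := isCompact_Icc.exists_bound_of_continuousOn (hc.mono hsub)
  have hm : ∀ x ∈ Sh d a b, ‖x‖ ^ 2 ∈ Icc (a ^ 2) (b ^ 2) := fun x hx =>
    ⟨(an_sq ha hx).1.le, (an_sq ha hx).2.le⟩
  have hb : 0 < b := ha.trans hab
  have hK0 : 0 ≤ K := (norm_nonneg _).trans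
    (hK (a ^ 2) ⟨le_rfl, (pow_lt_pow_left₀ hab ha.le two_ne_zero).le⟩)
  have h1 : MemLp (fun x : En d => (2 * deriv h (‖x‖ ^ 2)) • x) 2 (mu (Sh d a b)) := by
    refine an_memLp _ ?_ (2 * K * b) ?_
    · have h2 : ContinuousOn (fun x : En d => deriv h (‖x‖ ^ 2)) (Sh d a b) :=
        hc.comp (continuous_norm.pow 2).continuousOn fun x hx => hsub (hm x hx)
      exact (continuousOn_const.mul h2).smul continuousOn_id
    · intro x hx
      rw [norm_smul, norm_mul, Real.norm_eq_abs 2, abs_two]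
      have e1 := hK _ (hm x hx)
      have e2 : ‖x‖ ≤ b := hx.2.le
      calc 2 * ‖deriv h (‖x‖ ^ 2)‖ * ‖x‖ ≤ 2 * K * ‖x‖ := by gcongr
        _ ≤ 2 * K * b := by gcongr
  refine (memLp_congr_ae ?_).1 h1
  refine (ae_restrict_iff' (an_open d a b).measurableSet).2 (Filter.Eventually.of_forall fun x hx => ?_)
  have hd : HasDerivAt h (deriv h (‖x‖ ^ 2)) (‖x‖ ^ 2) := by
    have h0 : ‖x‖ ^ 2 ∈ Ioi (0 : ℝ) := hsub (hm x hx)
    exact ((hh.differentiableOn (by simp)).differentiableAt (isOpen_Ioi.mem_nhds h0)).hasDerivAt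
  exact (rad_grad h x hd).gradient.symm

/-- the bound -/
theorem an_bound {a b : ℝ} (ha : 0 < a) (hab : a < b) (g : ℝ → ℝ)
    (hg : ContDiffOn ℝ ((⊤ : ℕ∞) : WithTop ℕ∞) g (Ioi 0)) (h0 : g (a ^ 2) = 0)
    (h1 : g (b ^ 2) = 0) :
    ∃ C : ℝ, ∀ t ∈ Icc (a ^ 2) (b ^ 2), |g t| ≤ C * ((t - a ^ 2) * (b ^ 2 - t)) := by
  have hc : ContinuousOn (deriv g) (Ioi 0) :=
    hg.continuousOn_deriv_of_isOpen isOpen_Ioi (by exact_mod_cast le_top)
  have hsub : Icc (a ^ 2) (b ^ 2) ⊆ Ioi (0 : ℝ) := fun t ht => lt_of_lt_of_le (by positivity) ht.1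
  obtain ⟨K, hK⟩ := isCompact_Icc.exists_bound_of_continuousOn (hc.mono hsub)
  have hlt : a ^ 2 < b ^ 2 := pow_lt_pow_left₀ hab ha.le two_ne_zero
  have hdiff : ∀ t ∈ Icc (a ^ 2) (b ^ 2), DifferentiableAt ℝ g t := fun t ht =>
    (hg.differentiableOn (by simp)).differentiableAt (isOpen_Ioi.mem_nhds (hsub ht))
  have hL : ∀ s ∈ Icc (a ^ 2) (b ^ 2), ∀ t ∈ Icc (a ^ 2) (b ^ 2), ‖g t - g s‖ ≤ K * ‖t - s‖ :=
    fun s hs t ht => (convex_Icc _ _).norm_image_sub_le_of_norm_deriv_le hdiff hK hs ht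
  refine ⟨2 * K / (b ^ 2 - a ^ 2), fun t ht => ?_⟩
  have e1 := hL (a ^ 2) ⟨le_rfl, hlt.le⟩ t ht
  have e2 := hL (b ^ 2) ⟨hlt.le, le_rfl⟩ t ht
  rw [h0, sub_zero, Real.norm_eq_abs, Real.norm_eq_abs,
    abs_of_nonneg (a := t - a ^ 2) (by linarith [ht.1])] at e1
  rw [h1, sub_zero, Real.norm_eq_abs, Real.norm_eq_abs,
    abs_of_nonpos (a := t - b ^ 2) (by linarith [ht.2])] at e2
  have e3 : |g t| * (b ^ 2 - t) ≤ K * (t - a ^ 2) * (b ^ 2 - t) :=
    mul_le_mul_of_nonneg_right e1 (by linarith [ht.2])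
  have e4 : |g t| * (t - a ^ 2) ≤ K * -(t - b ^ 2) * (t - a ^ 2) :=
    mul_le_mul_of_nonneg_right e2 (by linarith [ht.1])
  have hpos : 0 < b ^ 2 - a ^ 2 := by linarith
  rw [div_mul_eq_mul_div, le_div_iff₀ hpos]
  linarith

/-- **RHD** -/
theorem rhd (gcf : Pool.Agent.BES.GcfStmt) : RhdStmt := by
  intro d a b g hd ha hab hg h0 h1
  obtain ⟨C, hC⟩ := an_bound ha hab g hg h0 h1
  have hm : ∀ x ∈ Sh d a b, ‖x‖ ^ 2 ∈ Icc (a ^ 2) (b ^ 2) := fun x hx =>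
    ⟨(an_sq ha hx).1.le, (an_sq ha hx).2.le⟩
  have hsub : Icc (a ^ 2) (b ^ 2) ⊆ Ioi (0 : ℝ) := fun t ht => lt_of_lt_of_le (by positivity) ht.1
  have hN : ContDiff ℝ ((⊤ : ℕ∞) : WithTop ℕ∞) fun x : En d => ‖x‖ ^ 2 := contDiff_norm_sq ℝ
  have hP : ContDiff ℝ ((⊤ : ℕ∞) : WithTop ℕ∞) fun t : ℝ => (t - a ^ 2) * (b ^ 2 - t) :=
    (contDiff_id.sub contDiff_const).mul (contDiff_const.sub contDiff_id)
  have hv : ContDiffOn ℝ ((⊤ : ℕ∞) : WithTop ℕ∞) (fun x : En d => g (‖x‖ ^ 2)) (Sh d a b) :=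
    hg.comp hN.contDiffOn fun x hx => hsub (hm x hx)
  have hδc : Continuous fun x : En d => (‖x‖ ^ 2 - a ^ 2) * (b ^ 2 - ‖x‖ ^ 2) :=
    (hP.comp hN).continuous
  refine gcf d (Sh d a b) (fun x => (‖x‖ ^ 2 - a ^ 2) * (b ^ 2 - ‖x‖ ^ 2)) (fun x => g (‖x‖ ^ 2)) C
    (an_dom hd ha hab) (hP.comp hN).contDiffOn hv ?_ ?_ ?_ ?_ ?_ ?_
  · intro x hx
    have h := an_sq ha hx
    exact mul_pos (by linarith [h.1]) (by linarith [h.2])
  · intro ε hε
    have heq : {x : En d | x ∈ Sh d a b ∧ ε ≤ (‖x‖ ^ 2 - a ^ 2) * (b ^ 2 - ‖x‖ ^ 2)} =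
        {x : En d | a ≤ ‖x‖} ∩ ({x : En d | ‖x‖ ≤ b} ∩
          {x : En d | ε ≤ (‖x‖ ^ 2 - a ^ 2) * (b ^ 2 - ‖x‖ ^ 2)}) := by
      ext x
      constructor
      · rintro ⟨hx, he⟩
        exact ⟨hx.1.le, hx.2.le, he⟩
      · rintro ⟨hx1, hx2, he⟩
        refine ⟨⟨lt_of_le_of_ne hx1 fun h => ?_, lt_of_le_of_ne hx2 fun h => ?_⟩, he⟩
        · have he' : ε ≤ (‖x‖ ^ 2 - a ^ 2) * (b ^ 2 - ‖x‖ ^ 2) := he
          rw [← h, sub_self, zero_mul] at he'
          exact absurd hε (not_lt.2 he')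
        · have he' : ε ≤ (‖x‖ ^ 2 - a ^ 2) * (b ^ 2 - ‖x‖ ^ 2) := he
          rw [h, sub_self, mul_zero] at he'
          exact absurd hε (not_lt.2 he')
    rw [heq]
    refine IsCompact.of_isClosed_subset (isCompact_closedBall (0 : En d) b) ?_ ?_
    · exact (isClosed_le continuous_const continuous_norm).inter
        ((isClosed_le continuous_norm continuous_const).inter
          (isClosed_le continuous_const hδc))
    · rintro x ⟨-, hx, -⟩
      rw [mem_closedBall_zero_iff]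
      exact hx
  · exact fun x hx => hC _ (hm x hx)
  · have hgc : ContinuousOn g (Icc (a ^ 2) (b ^ 2)) := hg.continuousOn.mono hsub
    obtain ⟨K, hK⟩ := isCompact_Icc.exists_bound_of_continuousOn hgc
    exact an_memLp _ hv.continuousOn K fun x hx => hK _ (hm x hx)
  · exact an_grad ha hab _ hP.contDiffOn
  · exact an_grad ha hab g hg

end

end Pool.Agent.BER.H88
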